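import Pool.Agent.Q36.KM.Meas
import Pool.Agent.TH676.CK.Exist

/-!
# MP_8ca5b0_lc, Q1: convex combinations of Kolmogorov random measures are Kolmogorov random

`U` is any optimal plain machine, so that `cx U` is plain complexity `C` (`Pool.Agent.TH676.CK.OptPlain`,
`cx`), and `avg μ f n` is the sum over the strings `x` of length `n` of `μ[x] * f x`
(`Pool.Agent.Q316.KC.avg`).

Idea of the proof. Let `f` be the deficiency `|x| - C(x)` and `g = 2 ^ ⌊f / 4⌋`; the functions `g` at level
`n` are bounded in `L²`. One constructs an increasing sequence of functions `w_m` on Cantor space, bounded in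
`L²`, such that `w_m` dominates a convex combination of the functions `g` at levels `≥ m`: the increments
nearly minimise the `L²` norm, so that their inner product with `w_m - g_N` is almost nonpositive for
all late `N`. By compactness the construction is made canonical and its approximations at stage `n` can be
computed; a machine then compresses all long strings on which `w_m` is large, so that for a Kolmogorov random
measure `μ` the integrals of `log w_m` are bounded. Since `∫ log w_m dμ` is at least a quarter of a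
convex combination of the mean deficiencies of `μ` at levels `≥ m`, the *sum* of the mean
deficiencies of two Kolmogorov random measures is bounded at infinitely many levels.
-/

set_option autoImplicit false

open MeasureTheory

namespace Pool.Agent.Results.MP_8ca5b0_lc.ConvexCombinations

open Pool.Agent.TH676.CK (OptPlain cx)
open Pool.Agent.Q316.KC (avg)

/-- `μ` is Kolmogorov random: for some constant `d`, `C(μ↾n) ≥ n - d` for infinitely many `n`. -/
def KRandom (U : List Bool →. List Bool) (μ : Measure (ℕ → Bool)) : Prop :=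
  ∃ d : ℝ, ∃ᶠ n : ℕ in Filter.atTop, (n : ℝ) - d ≤ avg μ (cx U) n

/-- complexity is at most the length, up to a constant -/
lemma cx_le {U : List Bool →. List Bool} (hU : OptPlain U) : ∃ c : ℕ, ∀ x : List Bool, cx U x ≤ x.length + c := by
  obtain ⟨c, hc⟩ := hU.2 (fun p => Part.some p) Computable.id.partrec
  refine ⟨c, fun x => ?_⟩
  obtain ⟨q, hq1, hq2⟩ := hc x x (Part.mem_some x)
  have h : cx U x ≤ q.length := Nat.sInf_le ⟨q, rfl, hq1⟩
  exact h.trans hq2

/-- the mean deficiency is bounded below -/
lemma deficiency_ge {U : List Bool →. List Bool} {c : ℕ} (hc : ∀ x : List Bool, cx U x ≤ x.length + c)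
    (μ : Measure (ℕ → Bool)) [IsProbabilityMeasure μ] (n : ℕ) : -(c : ℝ) ≤ (n : ℝ) - avg μ (cx U) n := by
  have h := Pool.Agent.Q316.KC.avg_le μ (le_refl n) (cx U) (fun _ => (n : ℝ) + c) (by
    intro x y _ hy _
    have := hc y
    rw [hy] at this
    exact_mod_cast this)
  rw [← Finset.sum_mul, Pool.Agent.Q316.KC.sum_wt μ n, one_mul] at h
  linarith

/-- the average is affine in the measure -/
lemma avg_combo (μ ν : Measure (ℕ → Bool)) [IsProbabilityMeasure μ] [IsProbabilityMeasure ν] (f : List Bool → ℕ)
    (n : ℕ) {t : ℝ} (h0 : 0 ≤ t) (h1 : t ≤ 1) :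
    avg (ENNReal.ofReal t • μ + ENNReal.ofReal (1 - t) • ν) f n = t * avg μ f n + (1 - t) * avg ν f n := by
  unfold Pool.Agent.Q316.KC.avg
  rw [Finset.mul_sum, Finset.mul_sum, ← Finset.sum_add_distrib]
  refine Finset.sum_congr rfl fun v _ => ?_
  have h2 : (ENNReal.ofReal t • μ + ENNReal.ofReal (1 - t) • ν).real {X | ∀ i : Fin n, X i = v i} =
      t * μ.real {X | ∀ i : Fin n, X i = v i} + (1 - t) * ν.real {X | ∀ i : Fin n, X i = v i} := by
    unfold Measure.real
    rw [Measure.add_apply, Measure.smul_apply, Measure.smul_apply, smul_eq_mul, smul_eq_mul,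
      ENNReal.toReal_add (ENNReal.mul_ne_top ENNReal.ofReal_ne_top (measure_ne_top _ _))
      (ENNReal.mul_ne_top ENNReal.ofReal_ne_top (measure_ne_top _ _)), ENNReal.toReal_mul,
      ENNReal.toReal_mul, ENNReal.toReal_ofReal h0, ENNReal.toReal_ofReal (by linarith)]
  rw [h2]
  ring

/-- a convex combination of probability measures is a probability measure -/
lemma prob_combo (μ ν : Measure (ℕ → Bool)) [IsProbabilityMeasure μ] [IsProbabilityMeasure ν]
    {t : ℝ} (h0 : 0 ≤ t) (h1 : t ≤ 1) :
    IsProbabilityMeasure (ENNReal.ofReal t • μ + ENNReal.ofReal (1 - t) • ν) := by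
  constructor
  rw [Measure.add_apply, Measure.smul_apply, Measure.smul_apply, smul_eq_mul, smul_eq_mul, measure_univ,
    measure_univ, mul_one, mul_one, ← ENNReal.ofReal_add h0 (by linarith)]
  simp

/-- **The answer to Q1 is yes**: for every optimal plain machine (they exist), every convex combination of two
Kolmogorov random measures is Kolmogorov random. Moreover any two Kolmogorov random measures have high
complexity at common lengths: `C(μ↾n) ≥ n - d` and `C(ν↾n) ≥ n - d` for infinitely many common `n`. -/
theorem result : (∃ U : List Bool →. List Bool, OptPlain U) ∧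
    ∀ U : List Bool →. List Bool, OptPlain U →
      ∀ μ ν : Measure (ℕ → Bool), IsProbabilityMeasure μ → IsProbabilityMeasure ν →
        KRandom U μ → KRandom U ν →
        (∀ t : ℝ, 0 ≤ t → t ≤ 1 →
          IsProbabilityMeasure (ENNReal.ofReal t • μ + ENNReal.ofReal (1 - t) • ν) ∧
          KRandom U (ENNReal.ofReal t • μ + ENNReal.ofReal (1 - t) • ν)) ∧
        (∃ d : ℝ, ∃ᶠ n : ℕ in Filter.atTop,
          (n : ℝ) - d ≤ avg μ (cx U) n ∧ (n : ℝ) - d ≤ avg ν (cx U) n) := by
  refine ⟨Pool.Agent.TH676.CK.exists_optPlain, ?_⟩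
  intro U hU μ ν hμ hν hKμ hKν
  obtain ⟨d, hd⟩ := hKμ
  obtain ⟨d', hd'⟩ := hKν
  obtain ⟨K, hK⟩ := Pool.Agent.Q36.KM.simul hU μ ν hd hd'
  obtain ⟨c, hc⟩ := cx_le hU
  refine ⟨fun t h0 h1 => ⟨prob_combo μ ν h0 h1, K + c, ?_⟩, K + c, ?_⟩
  · refine hK.mono fun n hn => ?_
    rw [avg_combo μ ν (cx U) n h0 h1]
    have e1 := deficiency_ge hc μ n
    have e2 := deficiency_ge hc ν n
    have p1 : t * ((n : ℝ) - avg μ (cx U) n + c) ≤ 1 * ((n : ℝ) - avg μ (cx U) n + c) :=
      mul_le_mul_of_nonneg_right h1 (by linarith)
    have p2 : (1 - t) * ((n : ℝ) - avg ν (cx U) n + c) ≤ 1 * ((n : ℝ) - avg ν (cx U) n + c) :=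
      mul_le_mul_of_nonneg_right (by linarith) (by linarith)
    nlinarith
  · refine hK.mono fun n hn => ?_
    have e1 := deficiency_ge hc μ n
    have e2 := deficiency_ge hc ν n
    exact ⟨by linarith, by linarith⟩

end Pool.Agent.Results.MP_8ca5b0_lc.ConvexCombinations
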